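import Pool.Agent.H.MP_1660ca_co.C

set_option autoImplicit false

namespace Pool.Agent.Results.MP_1660ca_co.Count

open Finset Pool.Agent.H.MP_1660ca_co

theorem result : ∃ K : ℕ → ℕ → ℕ → ℕ → ℕ,
    (∀ e a b, K 0 e a b = 1) ∧
    (∀ n e a b, K (n + 1) e a b = ∑ x ∈ range (a + 1), ∑ y ∈ range (b + 1),
      if x = e + y then K n e (a + 1) (b + 1)
      else if x < e + y then
        ∑ k ∈ range (n + 1), n.choose k * K k e x y * K (n - k) (e + y - x) (a - x) (b - y)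
      else 0) ∧
    ∀ n : ℕ, Nat.card {p : Equiv.Perm (Fin n) × Equiv.Perm (Fin n) //
      Inv p.1 ⊆ Inv p.2 ∧ IsDistrib p.1 p.2} = K n 0 0 0 :=
  ⟨K, K_zero, K_succ, main⟩

end Pool.Agent.Results.MP_1660ca_co.Count
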